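import Pool.Agent.Helper53.CTG.Goals

/-!
# PROJECT CTG (MP_8b4d68_lc): packet STP
-/

namespace Pool.Agent.Helper78.CTG

open Pool.Agent.Helper53.CTG
open Pool.Agent.Helper1.TE (Gad app word)
open Pool.Agent.Helper65.LinSpace (dig ifz eq01 capPow)

theorem word_lt (w : List Bool) (i b : ℕ) : word w i b < 2 ^ b := by
  induction b with
  | zero => simp [word]
  | succ b ih =>
    have h : (w.getD (i + b) false).toNat ≤ 1 := Bool.toNat_le _
    have e : word w i (b + 1) = 2 * word w i b + (w.getD (i + b) false).toNat := rfl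
    rw [e, pow_succ]
    omega

theorem capPow_eq {q i B : ℕ} (h : q ^ i ≤ B) : capPow q i B = q ^ i := by
  unfold capPow
  omega

theorem parts (b g : ℕ) : 4 ^ b * gA (2 ^ b) g + 2 ^ b * gY (2 ^ b) g + gZ (2 ^ b) g = g := by
  unfold gA gY gZ
  have h4b : (4 : ℕ) ^ b = 2 ^ b * 2 ^ b := by
    rw [← mul_pow]
    norm_num
  have e1 : g / (2 ^ b) ^ 2 = g / 2 ^ b / 2 ^ b := by
    rw [sq, Nat.div_div_eq_div_mul]
  rw [h4b, e1]
  have h1 := Nat.div_add_mod g (2 ^ b)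
  have h2 := Nat.div_add_mod (g / 2 ^ b) (2 ^ b)
  calc 2 ^ b * 2 ^ b * (g / 2 ^ b / 2 ^ b) + 2 ^ b * (g / 2 ^ b % 2 ^ b) + g % 2 ^ b
      = 2 ^ b * (2 ^ b * (g / 2 ^ b / 2 ^ b) + g / 2 ^ b % 2 ^ b) + g % 2 ^ b := by ring
    _ = 2 ^ b * (g / 2 ^ b) + g % 2 ^ b := by rw [h2]
    _ = g := h1

theorem gSTP : GoalSTP := by
  intro hPB hWFD hDES hOK hDI hEE ok tst w N q b c τ g X S A hF hτ hg hX hS hCh D t hD ht
  obtain ⟨⟨-, -, hq, hqN, hb, hc, -⟩, -⟩ := hF
  obtain ⟨p1, p2, p3, p4, p5, p6, p7, p8, p9, p10, -⟩ := hPB N q b c hq hqN hb hc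
  set W := 2 ^ Et N q b c with hW
  have hok : OK9 (gadC b W) := hOK b W hb p8
  have hr : TabOK (gadC b W) (tabV b (dat w N q b c)) c :=
    ⟨fun m v x y z => word_lt _ _ _, Nat.pow_le_pow_right (by norm_num) hc⟩
  have hVdef : ∀ z : ℕ × ℕ, (gadC b W).V z ↔ z.1 < Pb b ^ (4 * b + 2) := fun z => Iff.rfl
  have hG : (gadC b W).G = Gb b := rfl
  have hst : ∀ z : ℕ × ℕ, (gadC b W).st z = z.2 := fun z => rfl
  have hK3 : (gadC b W).K ^ 3 = 8 ^ b := by
    change (2 ^ b) ^ 3 = 8 ^ b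
    rw [← pow_mul, mul_comm, pow_mul]
    norm_num
  have hPbpos : 0 < Pb b := by
    unfold Pb
    omega
  have hC0 : ∀ j : ℕ, (gadC b W).V ((fun _ => (0, 0) : ℕ → ℕ × ℕ) j) ∧
      (gadC b W).st ((fun _ => (0, 0) : ℕ → ℕ × ℕ) j) = 0 :=
    fun j => ⟨(hVdef _).2 (pow_pos hPbpos _), rfl⟩
  -- the descriptor
  have hWF : WF q (2 ^ Nt N q * 2) D := by
    rw [hD]
    exact hWFD.2.1 q 2 (root N q) (Nt N q) τ (Nt N q) hq (hWFD.2.2 N q hq) le_rfl
  have hop : ∀ G s, opM tst w N q b c τ G s =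
      exec (gadC b W) tst (tabV b (dat w N q b c)) c D G s := by
    intro G s
    have h1 := hDES.1 (gadC b W) tst (tabV b (dat w N q b c)) q c (root N q) (Nt N q) τ G s
    rw [hD, hDES.2 q (root N q) (Nt N q) τ hτ]
    exact h1
  -- the guess
  have hblk : blkM b c W D A g =
      ifz D.k ((3 * D.v + 2) * 8 ^ b + 4 ^ b * (A % 2 ^ c)) ((3 * D.v + D.m) * 8 ^ b + g) := by
    unfold blkM
    rw [capPow_eq p9, capPow_eq p10]
  have ht0 : D.k = 0 → t = tabV b (dat w N q b c) 2 D.v (A % 2 ^ c) 0 0 := by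
    intro hk
    rw [ht, hblk, hk]
    unfold tabV
    rw [Nat.mul_zero, Nat.add_zero, Nat.add_zero]
    rfl
  have ht4 : D.k ≠ 0 → t = tabV b (dat w N q b c) D.m D.v (gA (2 ^ b) g) (gY (2 ^ b) g)
      (gZ (2 ^ b) g) := by
    intro hk
    have e : ifz D.k ((3 * D.v + 2) * 8 ^ b + 4 ^ b * (A % 2 ^ c))
        ((3 * D.v + D.m) * 8 ^ b + g) = (3 * D.v + D.m) * 8 ^ b + g := if_neg hk
    rw [ht, hblk, e]
    unfold tabV
    rw [parts]
  -- bounds of the old state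
  obtain ⟨γ, hγ, hrun⟩ := hCh
  have hdi := hDI (gadC b W) hok tst (tabV b (dat w N q b c)) N q c τ A γ
    (fun _ => (0, 0)) (toF N q b X S) hr hq hqN (fun τ' => by rw [hK3]; exact hγ τ') hC0 hτ hrun
  have hdig : ∀ j, dig (2 ^ Eb b) X j < Pb b ^ (4 * b + 2) := fun j => hdi.1 j
  have hee := hEE tst (tabV b (dat w N q b c)) N q b c (2 ^ Nt N q * 2) g t X S
    A D hq hqN hb hc hWF hg hX hS hdig ht0 (fun hk => ht4 (by omega))
  refine ⟨?_, ?_⟩
  · intro h0
    rw [hop]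
    exact hee.1 h0
  · intro h0
    obtain ⟨C', hC1, hC2⟩ := hee.2 h0
    have hstep : opM tst w N q b c τ g (toF N q b X S, A) = some (C', bigA c W D t A) := by
      rw [hop]
      exact hC1
    have hγ' : ∀ τ', Function.update γ τ g τ' < 8 ^ b := by
      intro τ'
      by_cases h : τ' = τ
      · rw [h, Function.update_self]
        exact hg
      · rw [Function.update_of_ne h]
        exact hγ τ'
    have hrun' : runs (opM tst w N q b c) (Function.update γ τ g) (τ + 1) (fun _ => (0, 0), 0) =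
        some (C', bigA c W D t A) := by
      rw [runs_succ_eq_some]
      refine ⟨(toF N q b X S, A), ?_, ?_⟩
      · rw [← hrun]
        refine runs_congr fun τ' hτ' => ?_
        rw [Function.update_of_ne (by omega)]
      · rw [Function.update_self]
        exact hstep
    refine ⟨_, hstep, ⟨_, hγ', hrun'⟩, ?_⟩
    intro hτ1
    have hdi' := hDI (gadC b W) hok tst (tabV b (dat w N q b c)) N q c (τ + 1)
      (bigA c W D t A) (Function.update γ τ g) (fun _ => (0, 0)) C' hr hq hqN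
      (fun τ' => by rw [hK3]; exact hγ' τ') hC0 hτ1 hrun'
    obtain ⟨e1, e2, e3⟩ := hC2 (fun j hj => ⟨hdi'.1 j,
      lt_of_lt_of_le (by
        have h1 := hdi'.2.1 j hj
        rw [hG, hst] at h1
        exact h1) p3⟩)
    refine ⟨?_, e2, e3⟩
    rw [e1]

end Pool.Agent.Helper78.CTG
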